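import Pool.Agent.helper12.DD.Spec

set_option autoImplicit false

open Pool.Agent.helper49.Blk

namespace Pool.Agent.DD

theorem ALT (hTRG : TRG_stmt) (hCJK : CJK_stmt) : ALT_stmt := by
  intro G E _ _ _ ι hι hn p M χ T hT d U
  have hinv : ∀ C C' : List (Subgroup G), Conj C C' →
      (-1 : ℚ) ^ (C.length - 1) * (kC p M ι χ C d U : ℚ) =
        (-1 : ℚ) ^ (C'.length - 1) * (kC p M ι χ C' d U : ℚ) := by
    intro C C' h
    rw [hCJK G E ι hι hn p M χ C C' d U h]
    obtain ⟨g, rfl⟩ := h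
    rw [List.length_map]
  have h := hTRG G p T hT (fun C => (-1 : ℚ) ^ (C.length - 1) * (kC p M ι χ C d U : ℚ)) hinv
  have h1 : (altT p M ι χ T d U : ℚ) =
      ∑ C ∈ T, (-1 : ℚ) ^ (C.length - 1) * (kC p M ι χ C d U : ℚ) := by
    unfold altT
    push_cast
    rfl
  rw [h1, h]
  unfold altQ
  refine finsum_mem_congr rfl fun C _ => ?_
  ring

end Pool.Agent.DD
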