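import Pool.Agent.helper12.DD.Spec

set_option autoImplicit false

open Pool.Agent.helper49.Blk

namespace Pool.Agent.DD

theorem ALW (hRAD : RAD_stmt) : ALW_stmt := by
  intro G _ _ p P₀ hP φ
  have hset : {C : List (Subgroup G) | Radical p C} =
      (fun C => P₀ :: C) '' {C : List (Subgroup G) | RT p ⊤ P₀ C} := by
    ext C
    rw [Set.mem_ofPred_eq, hRAD G p C]
    constructor
    · rintro ⟨P₁, C', rfl, h1, h2⟩
      have h3 : P₁ = P₀ := h1.unique hP
      subst h3
      exact ⟨C', h2, rfl⟩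
    · rintro ⟨C', h2, rfl⟩
      exact ⟨P₀, C', rfl, hP, h2⟩
  rw [hset, finsum_mem_image (fun C _ C' _ h => (List.cons.inj h).2)]
  unfold W
  refine finsum_mem_congr rfl fun C _ => ?_
  rw [List.length_cons, Nat.add_sub_cancel]

end Pool.Agent.DD
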