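import Pool.Agent.helper12.DD.Spec

set_option autoImplicit false

open Pool.Agent.helper49.Blk

namespace Pool.Agent.DD

theorem DFA_bdd {G : Type} [Group G] (p : ℕ) (M : Ideal (integralClosure ℤ ℂ)) (χ : G → ℂ) :
    BddAbove {d | ∃ ψ ∈ Irr G, SameBlock M χ ψ ∧ Defc p ψ d} := by
  refine ⟨padicValNat p (Nat.card G), ?_⟩
  rintro d ⟨ψ, -, -, m, -, hm⟩
  omega

theorem DFA_refl {G : Type} [Group G] (M : Ideal (integralClosure ℤ ℂ)) (χ : G → ℂ) :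
    SameBlock M χ χ := fun g => ⟨0, M.zero_mem, by simp⟩

theorem DFA (hIRG : IRG_stmt) (hIND : IND_stmt) (hDFP : DFP_stmt) : DFA_stmt := by
  intro p hp M A B _ _ _ _ χ₁ h₁ χ₂ h₂
  have hne1 : {d | ∃ ψ ∈ Irr A, SameBlock M χ₁ ψ ∧ Defc p ψ d}.Nonempty := by
    obtain ⟨d, hd⟩ := (hDFP p hp A B).2.2 χ₁ h₁
    exact ⟨d, χ₁, h₁, DFA_refl M χ₁, hd⟩
  have hne2 : {d | ∃ ψ ∈ Irr B, SameBlock M χ₂ ψ ∧ Defc p ψ d}.Nonempty := by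
    obtain ⟨d, hd⟩ := (hDFP p hp B B).2.2 χ₂ h₂
    exact ⟨d, χ₂, h₂, DFA_refl M χ₂, hd⟩
  have hmem : ∀ d, d ∈ {d | ∃ ψ ∈ Irr (A × B), SameBlock M (ot χ₁ χ₂) ψ ∧ Defc p ψ d} ↔
      ∃ i ∈ {d | ∃ ψ ∈ Irr A, SameBlock M χ₁ ψ ∧ Defc p ψ d},
        ∃ j ∈ {d | ∃ ψ ∈ Irr B, SameBlock M χ₂ ψ ∧ Defc p ψ d}, i + j = d := by
    intro d
    constructor
    · rintro ⟨ψ, hψ, hs, hd⟩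
      obtain ⟨ψ₁, hψ₁, ψ₂, hψ₂, rfl⟩ := (hIRG A B ψ).1 hψ
      obtain ⟨hs1, hs2⟩ := ((hIND M A B χ₁ h₁ χ₂ h₂).2 ψ₁ hψ₁ ψ₂ hψ₂).1 hs
      obtain ⟨i, j, hij, hi, hj⟩ := ((hDFP p hp A B).2.1 ψ₁ hψ₁ ψ₂ hψ₂ d).1 hd
      exact ⟨i, ⟨ψ₁, hψ₁, hs1, hi⟩, j, ⟨ψ₂, hψ₂, hs2, hj⟩, hij⟩
    · rintro ⟨i, ⟨ψ₁, hψ₁, hs1, hi⟩, j, ⟨ψ₂, hψ₂, hs2, hj⟩, hij⟩
      refine ⟨ot ψ₁ ψ₂, (hIRG A B _).2 ⟨ψ₁, hψ₁, ψ₂, hψ₂, rfl⟩, ?_, ?_⟩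
      · exact ((hIND M A B χ₁ h₁ χ₂ h₂).2 ψ₁ hψ₁ ψ₂ hψ₂).2 ⟨hs1, hs2⟩
      · exact ((hDFP p hp A B).2.1 ψ₁ hψ₁ ψ₂ hψ₂ d).2 ⟨i, j, hij, hi, hj⟩
  have hm1 : df p M χ₁ ∈ {d | ∃ ψ ∈ Irr A, SameBlock M χ₁ ψ ∧ Defc p ψ d} :=
    Nat.sSup_mem hne1 (DFA_bdd p M χ₁)
  have hm2 : df p M χ₂ ∈ {d | ∃ ψ ∈ Irr B, SameBlock M χ₂ ψ ∧ Defc p ψ d} :=
    Nat.sSup_mem hne2 (DFA_bdd p M χ₂)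
  refine ⟨le_antisymm ?_ ?_, ?_⟩
  · refine csSup_le ?_ ?_
    · exact ⟨_, (hmem _).2 ⟨_, hm1, _, hm2, rfl⟩⟩
    · intro d hd
      obtain ⟨i, hi, j, hj, rfl⟩ := (hmem d).1 hd
      exact add_le_add (le_csSup (DFA_bdd p M χ₁) hi) (le_csSup (DFA_bdd p M χ₂) hj)
  · exact le_csSup (DFA_bdd p M _) ((hmem _).2 ⟨_, hm1, _, hm2, rfl⟩)
  · rintro ⟨ψ, ⟨hψ, hs⟩, m, hm, hlt⟩
    have hd : padicValNat p (Nat.card A) - padicValNat p m ∈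
        {d | ∃ ψ ∈ Irr A, SameBlock M χ₁ ψ ∧ Defc p ψ d} := by
      refine ⟨ψ, hψ, hs, m, hm, ?_⟩
      omega
    have h3 : padicValNat p (Nat.card A) - padicValNat p m ≤ df p M χ₁ :=
      le_csSup (DFA_bdd p M χ₁) hd
    omega

end Pool.Agent.DD
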